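import Pool.Agent.Lib.MP_1a91b9_nuG.Step
import Pool.Agent.Lib.MP_1a91b9_nuT.D6.Main
import Pool.Agent.Lib.MP_1a91b9_nuT.S7.Plug

/-!
# G4: the values of the partial L-series, in the form used by the cyclic step
-/

set_option autoImplicit false

namespace Pool.Agent.Lib.MP_1a91b9_nuG

variable [Pool.Agent.Lib.MP_1a91b9_nuT.CD]

open NumberField IsDedekindDomain Pool.Agent.Lib.MP_1a91b9_nt Pool.Agent.Lib.MP_1a91b9_nuT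
  Pool.Agent.Lib.MP_1a91b9_nuT.S4 Pool.Agent.Lib.MP_1a91b9_nuT.S7 Pool.Agent.Lib.MP_1a91b9_nuT.Ell

universe u

theorem valueProp_gen {q : ℕ} (hq : q.Prime) (f : 𝓞 K) (κ : ℂ)
    (hκ : ∀ A : ValuationSubring ℂ, Pl q A → ∀ k : ℕ, k.Coprime q → ∀ z : ℂ,
      (∃ l : ℤ × ℤ, (k : ℂ) * z = lp l) → E1 z / κ ∈ A)
    {F : Type u} [Field F] [NumberField F] [Algebra K F] (ε : 𝓞 K) (hε : IsCoprime ε (q : 𝓞 K))
    (hε1 : IsCoprime (ε ^ Module.finrank K F - 1) (q : 𝓞 K)) (hU : UQ q F)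
    (hu : ∀ 𝔪 : Ideal (𝓞 F), 𝔪 ≤ Ideal.span {up f F} → ∀ u : (𝓞 F)ˣ, (u : 𝓞 F) - 1 ∈ 𝔪 →
      Algebra.norm K ((u : 𝓞 F) : F) = 1)
    (htor : ∀ 𝔪 : Ideal (𝓞 F), 𝔪 ≤ Ideal.span {up f F} → ∀ u : (𝓞 F)ˣ, (u : 𝓞 F) - 1 ∈ 𝔪 →
      ∀ k : ℕ, 0 < k → u ^ k = 1 → u = 1) :
    ValueProp f q κ F := by
  intro m b t hm0 hmf hmq hb0 hbq _ htb htm
  obtain ⟨g, hg, hgs, hgA⟩ := d6_gen hq ε hε hε1 hU b m hb0 hbq hm0 hmq (hu m hmf) (htor m hmf)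
    t htb htm
  refine ⟨g, hg, fun R hR s hs => hasSum_coe (hgs _ (repsU_of_isRep htm hR) s hs), ?_⟩
  intro W hW
  rw [ValuationSubring.valuation_le_one_iff]
  exact hgA W hW κ (hκ W hW)


end Pool.Agent.Lib.MP_1a91b9_nuG
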