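import Pool.Agent.Lib.MP_1a91b9_nuG.Psi
import Pool.Agent.Lib.MP_1a91b9_nuT.S4.UnfoldL
import Pool.Agent.Lib.MP_1a91b9_nuT.S4.LComp
import Pool.Agent.Lib.MP_1a91b9_nuT.S4.TwoAdic
import Pool.Agent.Lib.MP_1a91b9_nuT.S4.Family

/-!
# G4: the interface with the values (stream S6), the continuation of the L-series, the base field
-/

set_option autoImplicit false

namespace Pool.Agent.Lib.MP_1a91b9_nuG

variable [Pool.Agent.Lib.MP_1a91b9_nuT.CD]

open NumberField IsDedekindDomain Pool.Agent.Lib.MP_1a91b9_nt Pool.Agent.Lib.MP_1a91b9_nuT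
  Pool.Agent.Lib.MP_1a91b9_nuT.S4

universe u

/-- The values of the partial L-series. -/
def ValueProp (f : 𝓞 K) (q : ℕ) (Ω : ℂ) (F : Type u) [Field F] [NumberField F] [Algebra K F] :
    Prop :=
  ∀ (m b : Ideal (𝓞 F)) (t : 𝓞 F), m ≠ 0 → m ≤ Ideal.span {up f F} →
    IsCoprime m (Ideal.span {(q : 𝓞 F)}) → b ≠ 0 → IsCoprime b (Ideal.span {(q : 𝓞 F)}) →
    IsCoprime b m → t ∈ b → t ∉ m * b →
    ∃ A : ℂ → ℂ, Differentiable ℂ A ∧
      (∀ R, IsRep m b t R → ∀ s : ℂ, 2 < s.re →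
        HasSum (fun r : R => (starRingEnd ℂ) (Nm ((r : 𝓞 F) : F)) *
          ((‖Nm ((r : 𝓞 F) : F)‖ : ℝ) : ℂ) ^ (-2 * s)) (A s)) ∧
      ∀ W : ValuationSubring ℂ, (q : ℂ)⁻¹ ∉ W →
        W.valuation (A 1 / Ω ^ (Module.finrank K F)) ≤ 1

/-- The L-series of `ψbar_F` continues and its normalised value at `1` is a unit above `q`. -/
def UnitProp (f : 𝓞 K) (q : ℕ) (Ω : ℂ) (F : Type u) [Field F] [NumberField F] [Algebra K F] :
    Prop :=
  ∃ L : ℂ → ℂ, Differentiable ℂ L ∧ (∀ s : ℂ, 2 < s.re → L s = Lf (psbC f F) s) ∧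
    ∀ W : ValuationSubring ℂ, (q : ℂ)⁻¹ ∉ W → W.valuation (L 1 / Ω ^ (Module.finrank K F)) = 1

section
variable (W : ValuationSubring ℂ)

theorem val_q {q : ℕ} (hW : (q : ℂ)⁻¹ ∉ W) : W.valuation (q : ℂ) < 1 := by
  have h : (q : ℂ) ∈ W.nonunits := by
    rw [ValuationSubring.mem_nonunits_iff_or]
    exact Or.inr hW
  exact h

/-- a natural number prime to `q` is a unit -/
theorem val_coprime {q : ℕ} (hW : (q : ℂ)⁻¹ ∉ W) (n : ℕ) (hn : n.Coprime q) :
    W.valuation (n : ℂ) = 1 := by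
  obtain ⟨x, y, hxy⟩ := Nat.isCoprime_iff_coprime.mpr hn
  have hle : ∀ z : ℤ, W.valuation (z : ℂ) ≤ 1 := fun z =>
    val_integral W (isIntegral_algebraMap (x := z))
  have h1 : W.valuation ((y : ℂ) * (q : ℂ)) < 1 := by
    rw [map_mul, mul_comm]
    calc W.valuation (q : ℂ) * W.valuation (y : ℂ) ≤ W.valuation (q : ℂ) * 1 :=
          mul_le_mul_right (hle y) _
      _ < 1 := by rw [mul_one]; exact val_q W hW
  have h2 : W.valuation ((x : ℂ) * (n : ℂ)) = 1 := by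
    have e : (x : ℂ) * (n : ℂ) = 1 + -((y : ℂ) * (q : ℂ)) := by
      have := congrArg (fun z : ℤ => (z : ℂ)) hxy
      push_cast at this
      linear_combination this
    rw [e]
    exact val_unit_add W (map_one _) (by rw [Valuation.map_neg]; exact h1)
  refine val_eq_one_of_mul W ?_ (hle x) ?_
  · have := hle n
    exact_mod_cast this
  · rw [mul_comm]
    exact h2

end

section
variable {f : 𝓞 K} [hf : IsMod f] {F : Type u} [Field F] [NumberField F] [Algebra K F] {q : ℕ}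
include hf


end

end Pool.Agent.Lib.MP_1a91b9_nuG
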