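import Pool.Agent.Lib.MP_1a91b9_nuT.BaseK

/-!
# G4: completely multiplicative and completely additive functions on ideals
-/

set_option autoImplicit false

namespace Pool.Agent.Lib.MP_1a91b9_nuG

variable [Pool.Agent.Lib.MP_1a91b9_nuT.CD]

open NumberField IsDedekindDomain UniqueFactorizationMonoid

section
variable {F : Type*} [Field F] [NumberField F]

section mul
variable {M : Type*} [CommMonoidWithZero M]

open Classical in
/-- the value at an ideal which is a place -/
noncomputable def atI (χ : HeightOneSpectrum (𝓞 F) → M) (P : Ideal (𝓞 F)) : M :=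
  if h : P.IsPrime ∧ P ≠ ⊥ then χ ⟨P, h.1, h.2⟩ else 0

open Classical in
/-- the completely multiplicative extension to ideals -/
noncomputable def mulI (χ : HeightOneSpectrum (𝓞 F) → M) (I : Ideal (𝓞 F)) : M :=
  if I = 0 then 0 else ((normalizedFactors I).map (atI χ)).prod

omit [NumberField F] in
theorem atI_place (χ : HeightOneSpectrum (𝓞 F) → M) (v : HeightOneSpectrum (𝓞 F)) :
    atI χ v.asIdeal = χ v := by
  rw [atI, dif_pos ⟨v.isPrime, v.ne_bot⟩]

theorem mulI_zero (χ : HeightOneSpectrum (𝓞 F) → M) : mulI χ 0 = 0 := by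
  rw [mulI, if_pos rfl]

theorem mulI_one (χ : HeightOneSpectrum (𝓞 F) → M) : mulI χ 1 = 1 := by
  rw [mulI, if_neg one_ne_zero, normalizedFactors_one]
  rfl

theorem mulI_mul (χ : HeightOneSpectrum (𝓞 F) → M) (I J : Ideal (𝓞 F)) :
    mulI χ (I * J) = mulI χ I * mulI χ J := by
  by_cases hI : I = 0
  · rw [hI, zero_mul, mulI_zero, zero_mul]
  by_cases hJ : J = 0
  · rw [hJ, mul_zero, mulI_zero, mul_zero]
  rw [mulI, mulI, mulI, if_neg hI, if_neg hJ, if_neg (mul_ne_zero hI hJ),
    normalizedFactors_mul hI hJ, Multiset.map_add, Multiset.prod_add]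

theorem mulI_place (χ : HeightOneSpectrum (𝓞 F) → M) (v : HeightOneSpectrum (𝓞 F)) :
    mulI χ v.asIdeal = χ v := by
  rw [mulI, if_neg v.prime.ne_zero, normalizedFactors_irreducible v.irreducible,
    Multiset.map_singleton, Multiset.prod_singleton, normalize_eq, atI_place]

/-- induction over the prime factors -/
theorem ideal_induction {P : Ideal (𝓞 F) → Prop} (h1 : P 1)
    (h2 : ∀ (v : HeightOneSpectrum (𝓞 F)) (I : Ideal (𝓞 F)), I ≠ 0 → P I → P (I * v.asIdeal))
    (I : Ideal (𝓞 F)) (hI : I ≠ 0) : P I := by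
  induction I using UniqueFactorizationMonoid.induction_on_prime with
  | h₁ => exact absurd rfl hI
  | h₂ J hJ =>
    have : J = 1 := by
      rw [Ideal.isUnit_iff] at hJ
      rw [hJ, Ideal.one_eq_top]
    rw [this]
    exact h1
  | h₃ J Q hJ hQ ih =>
    rw [mul_comm]
    exact h2 ⟨Q, Ideal.isPrime_of_prime hQ, hQ.ne_zero⟩ J hJ (ih hJ)

end mul

section add
variable {A : Type*} [AddCommMonoid A]

open Classical in
/-- the value at an ideal which is a place -/
noncomputable def atA (χ : HeightOneSpectrum (𝓞 F) → A) (P : Ideal (𝓞 F)) : A :=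
  if h : P.IsPrime ∧ P ≠ ⊥ then χ ⟨P, h.1, h.2⟩ else 0

/-- the completely additive extension to ideals -/
noncomputable def addI (χ : HeightOneSpectrum (𝓞 F) → A) (I : Ideal (𝓞 F)) : A :=
  ((normalizedFactors I).map (atA χ)).sum

omit [NumberField F] in
theorem atA_place (χ : HeightOneSpectrum (𝓞 F) → A) (v : HeightOneSpectrum (𝓞 F)) :
    atA χ v.asIdeal = χ v := by
  rw [atA, dif_pos ⟨v.isPrime, v.ne_bot⟩]

theorem addI_one (χ : HeightOneSpectrum (𝓞 F) → A) : addI χ 1 = 0 := by
  rw [addI, normalizedFactors_one]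
  rfl

theorem addI_mul (χ : HeightOneSpectrum (𝓞 F) → A) (I J : Ideal (𝓞 F)) (hI : I ≠ 0)
    (hJ : J ≠ 0) : addI χ (I * J) = addI χ I + addI χ J := by
  rw [addI, addI, addI, normalizedFactors_mul hI hJ, Multiset.map_add, Multiset.sum_add]

theorem addI_place (χ : HeightOneSpectrum (𝓞 F) → A) (v : HeightOneSpectrum (𝓞 F)) :
    addI χ v.asIdeal = χ v := by
  rw [addI, normalizedFactors_irreducible v.irreducible,
    Multiset.map_singleton, Multiset.sum_singleton, normalize_eq, atA_place]

end add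

end

end Pool.Agent.Lib.MP_1a91b9_nuG
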