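import Pool.Agent.Lib.MP_1a91b9_nuG.Psi
import Pool.Agent.Lib.MP_1a91b9_nuG.Mul
import Pool.Agent.Lib.MP_1a91b9_nuG.Ram

/-!
# G4: the L-series of `ψbar` over a cyclic extension of prime degree
-/

set_option autoImplicit false

namespace Pool.Agent.Lib.MP_1a91b9_nuG

variable [Pool.Agent.Lib.MP_1a91b9_nuT.CD]

open NumberField IsDedekindDomain Pool.Agent.Lib.MP_1a91b9_nt Pool.Agent.Lib.MP_1a91b9_nuT
  Pool.Agent.Lib.MP_1a91b9_nuT.S4

universe u

section roots
variable {ℓ : ℕ} [hℓ : Fact ℓ.Prime]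

/-- the product of `1 - ζ^j X` over the residues `j` -/
theorem prod_one_sub (X : ℂ) :
    ∏ j : ZMod ℓ, (1 - ZMod.stdAddChar j * X) = 1 - X ^ ℓ := by
  classical
  have hprim := Complex.isPrimitiveRoot_exp ℓ hℓ.out.ne_zero
  have h := hprim.pow_sub_pow_eq_prod_sub_mul (1 : ℂ) X hℓ.out.pos
  have himg : Finset.univ.image (fun j : ZMod ℓ => (ZMod.stdAddChar j : ℂ)) =
      Polynomial.nthRootsFinset ℓ (1 : ℂ) := by
    refine Finset.eq_of_subset_of_card_le ?_ ?_
    · intro z hz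
      obtain ⟨j, -, rfl⟩ := Finset.mem_image.mp hz
      rw [Polynomial.mem_nthRootsFinset hℓ.out.pos, ← AddChar.map_nsmul_eq_pow]
      have : ℓ • j = 0 := by rw [nsmul_eq_mul, ZMod.natCast_self, zero_mul]
      rw [this, AddChar.map_zero_eq_one]
    · rw [hprim.card_nthRootsFinset, Finset.card_image_of_injective _ ZMod.injective_stdAddChar,
        Finset.card_univ, ZMod.card]
  rw [← himg, Finset.prod_image (fun a _ b _ hab => ZMod.injective_stdAddChar hab), one_pow] at h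
  exact h.symm

theorem prod_one_sub_mul (a : ZMod ℓ) (ha : a ≠ 0) (X : ℂ) :
    ∏ j : ZMod ℓ, (1 - ZMod.stdAddChar (j * a) * X) = 1 - X ^ ℓ := by
  rw [← prod_one_sub X]
  exact Fintype.prod_bijective (fun j : ZMod ℓ => j * a) (mulRight_bijective₀ a ha) _ _
    fun j => rfl

end roots

section
variable {F F' : Type u} [Field F] [NumberField F] [Field F'] [NumberField F'] [Algebra F F']

/-- The character data of a cyclic extension of prime degree `ℓ` (class field theory). -/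
structure CFData (ℓ : ℕ) (F' : Type u) [Field F'] [NumberField F'] [Algebra F F']
    (x : HeightOneSpectrum (𝓞 F) → ZMod ℓ) : Prop where
  split : ∀ v, ¬ Ram F' v → (x v = 0 ↔ Fintype.card (Over F' v) = ℓ)
  recip : ∀ z : 𝓞 F, z ≠ 0 → (∀ v : HeightOneSpectrum (𝓞 F), Ram F' v → z - 1 ∈ v.asIdeal) →
    addI x (Ideal.span {z}) = 0

open Classical in
/-- the `j`-th character at the places; it vanishes at the ramified places if `j ≠ 0` -/
noncomputable def cj {ℓ : ℕ} [NeZero ℓ] (F' : Type u) [Field F'] [Algebra F F']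
    (x : HeightOneSpectrum (𝓞 F) → ZMod ℓ) (j : ZMod ℓ) (v : HeightOneSpectrum (𝓞 F)) : ℂ :=
  if Ram F' v then 0 else ZMod.stdAddChar (j * x v)

variable [Algebra K F] [Algebra K F'] [IsScalarTower K F F'] (f : 𝓞 K) [hf : IsMod f]


variable {ℓ : ℕ} [hℓ : Fact ℓ.Prime]


end

section
variable {F F' : Type u} [Field F] [NumberField F] [Field F'] [NumberField F'] [Algebra F F']
  [Algebra K F] [Algebra K F'] [IsScalarTower K F F'] (f : 𝓞 K) [hf : IsMod f]
  {ℓ : ℕ} [hℓ : Fact ℓ.Prime]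

omit [NumberField F] [NumberField F'] [Algebra K F] [Algebra K F'] [IsScalarTower K F F'] in
theorem norm_cj_le (x : HeightOneSpectrum (𝓞 F) → ZMod ℓ) (j : ZMod ℓ)
    (v : HeightOneSpectrum (𝓞 F)) : ‖cj F' x j v‖ ≤ 1 := by
  rw [cj]
  split_ifs
  · rw [norm_zero]; exact zero_le_one
  · rw [ZMod.stdAddChar_apply, Circle.norm_coe]

omit [NumberField F'] [Algebra K F] [Algebra K F'] [IsScalarTower K F F'] in
theorem norm_mulI_cj_le (x : HeightOneSpectrum (𝓞 F) → ZMod ℓ) (j : ZMod ℓ)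
    (I : Ideal (𝓞 F)) : ‖mulI (cj F' x j) I‖ ≤ 1 := by
  by_cases hI : I = 0
  · rw [hI, mulI_zero, norm_zero]; exact zero_le_one
  refine ideal_induction (P := fun I => ‖mulI (cj F' x j) I‖ ≤ 1) ?_ ?_ I hI
  · rw [mulI_one, norm_one]
  · intro v J _ ih
    rw [mulI_mul, norm_mul, mulI_place]
    exact mul_le_one₀ ih (norm_nonneg _) (norm_cj_le x j v)


end

end Pool.Agent.Lib.MP_1a91b9_nuG
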