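import Pool.Agent.Lib.MP_1a91b9_nuT.CF.Defs
import Pool.Agent.Lib.MP_1a91b9_nuG.Cyc

/-!
# G4: the character data from the reciprocity law
-/

set_option autoImplicit false

namespace Pool.Agent.Lib.MP_1a91b9_nuG

variable [Pool.Agent.Lib.MP_1a91b9_nuT.CD]

open NumberField IsDedekindDomain Pool.Agent.Lib.MP_1a91b9_nt Pool.Agent.Lib.MP_1a91b9_nuT
  Pool.Agent.Lib.MP_1a91b9_nuT.S4

universe u

variable {F F' : Type u} [Field F] [NumberField F] [Field F'] [NumberField F'] [Algebra F F']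

theorem ram_eq [IsGalois F F'] (v : HeightOneSpectrum (𝓞 F)) : Ram F' v ↔ CF.Ram F' v :=
  ram_iff v

theorem spl_iff {ℓ : ℕ} (hℓ : ℓ.Prime) [IsGalois F F'] (hL : Module.finrank F F' = ℓ)
    (v : HeightOneSpectrum (𝓞 F)) (hv : ¬ Ram F' v) :
    CF.Spl F' v ↔ Fintype.card (Over F' v) = ℓ := by
  have he : Ideal.ramificationIdxIn v.asIdeal (𝓞 F') = 1 := by
    by_contra h
    exact hv ((ram_iff v).mpr h)
  obtain ⟨w, hw⟩ := nonempty_over (F' := F') v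
  have hvp : v.asIdeal.IsPrime := v.isPrime
  have i1 : w.asIdeal.IsPrime := w.isPrime
  have i2 : w.asIdeal.LiesOver v.asIdeal := ⟨hw.symm⟩
  have hf : Ideal.inertiaDegIn v.asIdeal (𝓞 F') = w.asIdeal.inertiaDeg (𝓞 F) :=
    Ideal.inertiaDegIn_eq_inertiaDeg v.asIdeal w.asIdeal Gal(F'/F)
  rw [CF.Spl, hf]
  rcases cyc_cases hℓ hL v with ⟨-, h1, h2⟩ | ⟨-, h1, h2⟩ | ⟨h0, -, -⟩
  · exact iff_of_true ⟨he, (h2 ⟨w, hw⟩).1⟩ h1
  · refine iff_of_false (fun h => ?_) (fun h => ?_)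
    · rw [(h2 ⟨w, hw⟩).1] at h
      exact hℓ.one_lt.ne' h.2
    · rw [h1] at h
      exact hℓ.one_lt.ne h
  · exact absurd h0 hv

/-- The conversion of the reciprocity law. -/
theorem cfData_of {ℓ : ℕ} (hℓ : ℓ.Prime) [IsGalois F F'] (hL : Module.finrank F F' = ℓ)
    (x : HeightOneSpectrum (𝓞 F) → ZMod ℓ)
    (hs : ∀ v, ¬ CF.Ram F' v → (x v = 0 ↔ CF.Spl F' v))
    (hr : ∀ z : 𝓞 F, z ≠ 0 → (∀ v : HeightOneSpectrum (𝓞 F), CF.Ram F' v → z - 1 ∈ v.asIdeal) →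
      CF.evI x (Ideal.span {z}) = 0) : CFData ℓ F' x := by
  refine ⟨fun v hv => ?_, fun z hz h => ?_⟩
  · rw [hs v (fun h => hv ((ram_eq v).mpr h)), spl_iff hℓ hL v hv]
  · exact hr z hz fun v hv => h v ((ram_eq v).mpr hv)

end Pool.Agent.Lib.MP_1a91b9_nuG
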