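import Pool.Agent.Lib.MP_1a91b9_nuT.S4.NormAbs
import Pool.Agent.Lib.MP_1a91b9_nuT.S4.Compare

/-!
# G4: the Hecke characters `ψ` of `K` of conductor `f` with `(O/f)^* = O^*`
-/

set_option autoImplicit false

namespace Pool.Agent.Lib.MP_1a91b9_nuG

variable [Pool.Agent.Lib.MP_1a91b9_nuT.CD]

open NumberField IsDedekindDomain Pool.Agent.Lib.MP_1a91b9_nt Pool.Agent.Lib.MP_1a91b9_nuT
  Pool.Agent.Lib.MP_1a91b9_nuT.S4

universe u

/-- The moduli `f` for which the units represent the prime residue classes exactly once. -/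
class IsMod (f : 𝓞 K) : Prop where
  ne : f ≠ 0
  inj : ∀ u : (𝓞 K)ˣ, f ∣ (u : 𝓞 K) - 1 → u = 1
  surj : ∀ a : 𝓞 K, IsCoprime a f → ∃ u : (𝓞 K)ˣ, f ∣ (u : 𝓞 K) * a - 1

section
variable (f : 𝓞 K)

open Classical in
/-- `ψ` on ideals of `𝓞 K`: the generator congruent to `1` modulo `f` if there is one, `0`
otherwise. -/
noncomputable def psK (I : Ideal (𝓞 K)) : 𝓞 K :=
  if h : ∃ a : 𝓞 K, f ∣ a - 1 ∧ Ideal.span {a} = I then h.choose else 0

/-- `ψ_F` on ideals of `𝓞 F`. -/
noncomputable def ps (F : Type*) [Field F] [NumberField F] [Algebra K F] (I : Ideal (𝓞 F)) : 𝓞 K :=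
  psK f (Ideal.relNorm (𝓞 K) I)

/-- the complex value of `ψ_F` -/
noncomputable def psC (F : Type*) [Field F] [NumberField F] [Algebra K F] (I : Ideal (𝓞 F)) : ℂ :=
  embK (ps f F I : K)

/-- the complex value of the conjugate of `ψ_F` -/
noncomputable def psbC (F : Type*) [Field F] [NumberField F] [Algebra K F] (I : Ideal (𝓞 F)) : ℂ :=
  (starRingEnd ℂ) (psC f F I)

/-- The modulus in the ring of integers of an extension. -/
noncomputable abbrev up (F : Type*) [Field F] [Algebra K F] : 𝓞 F := algebraMap (𝓞 K) (𝓞 F) f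


variable {f} [hf : IsMod f]
include hf


end

section
variable (f : 𝓞 K) [hf : IsMod f] (F : Type*) [Field F] [NumberField F] [Algebra K F]
include hf


end

section
variable {f : 𝓞 K} {F : Type*} [Field F] [NumberField F] [Algebra K F]


variable [hf : IsMod f]
include hf


end

end Pool.Agent.Lib.MP_1a91b9_nuG
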