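import Pool.Agent.Lib.MP_1a91b9_nuG.Vals
import Pool.Agent.Lib.MP_1a91b9_nuG.Family
import Pool.Agent.Lib.MP_1a91b9_nuT.S4.StepMain

/-!
# G4: the cyclic step
-/

set_option autoImplicit false

namespace Pool.Agent.Lib.MP_1a91b9_nuG

variable [Pool.Agent.Lib.MP_1a91b9_nuT.CD]

open NumberField IsDedekindDomain Pool.Agent.Lib.MP_1a91b9_nt Pool.Agent.Lib.MP_1a91b9_nuT
  Pool.Agent.Lib.MP_1a91b9_nuT.S4

universe u

section
variable {F : Type u} [Field F] [NumberField F]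

theorem prod_le_iff (T : Finset (HeightOneSpectrum (𝓞 F))) (v : HeightOneSpectrum (𝓞 F)) :
    ∏ w ∈ T, w.asIdeal ≤ v.asIdeal ↔ v ∈ T := by
  constructor
  · intro h
    rw [v.isPrime.prod_le] at h
    obtain ⟨w, hw, hwv⟩ := h
    have : w = v := HeightOneSpectrum.ext (w.isMaximal.eq_of_le v.isPrime.ne_top hwv)
    rw [← this]
    exact hw
  · intro h
    exact (v.isPrime.prod_le).mpr ⟨v, h, le_rfl⟩

/-- the modulus of the cyclic step -/
theorem exists_mod (c q : 𝓞 F) (hc : c ≠ 0) (hcu : ¬ IsUnit c) (hcq : IsCoprime c q)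
    (T : Finset (HeightOneSpectrum (𝓞 F))) (hT : ∀ v ∈ T, q ∉ v.asIdeal) :
    ∃ m : Ideal (𝓞 F), m ≠ 0 ∧ m ≠ 1 ∧ m ≤ Ideal.span {c} ∧ IsCoprime m (Ideal.span {q}) ∧
      ∀ v : HeightOneSpectrum (𝓞 F), m ≤ v.asIdeal ↔ c ∈ v.asIdeal ∨ v ∈ T := by
  have h0 : Ideal.span {c} * ∏ w ∈ T, w.asIdeal ≠ 0 := by
    refine mul_ne_zero ?_ (Finset.prod_ne_zero_iff.mpr fun w _ => w.ne_bot)
    rw [Ne, Ideal.zero_eq_bot, Ideal.span_singleton_eq_bot]
    exact hc
  have hle : Ideal.span {c} * ∏ w ∈ T, w.asIdeal ≤ Ideal.span {c} := Ideal.mul_le_left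
  refine ⟨Ideal.span {c} * ∏ w ∈ T, w.asIdeal, h0, ?_, hle, ?_, ?_⟩
  · intro h
    rw [h, Ideal.one_eq_top, top_le_iff, Ideal.span_singleton_eq_top] at hle
    exact hcu hle
  · refine IsCoprime.mul_left ?_ (IsCoprime.prod_left fun w hw => ?_)
    · rw [Ideal.isCoprime_span_singleton_iff]
      exact hcq
    · exact coprime_of_not_mem w q (hT w hw)
  · intro v
    rw [v.isPrime.mul_le, Ideal.span_singleton_le_iff_mem, prod_le_iff]

end

section
variable {F F' : Type u} [Field F] [NumberField F] [Field F'] [NumberField F'] [Algebra F F']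
  [Algebra K F] {f : 𝓞 K} [hf : IsMod f] {ℓ : ℕ} [hℓ : Fact ℓ.Prime]


variable [Algebra K F'] [IsScalarTower K F F']


end

end Pool.Agent.Lib.MP_1a91b9_nuG
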