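import Pool.Agent.Lib.MP_1a91b9_nuG.RayC

/-!
# G4: valuations
-/

set_option autoImplicit false

namespace Pool.Agent.Lib.MP_1a91b9_nuG

variable [Pool.Agent.Lib.MP_1a91b9_nuT.CD]

open NumberField IsDedekindDomain Pool.Agent.Lib.MP_1a91b9_nt Pool.Agent.Lib.MP_1a91b9_nuT
  Pool.Agent.Lib.MP_1a91b9_nuT.S4

universe u

section
variable (W : ValuationSubring ℂ) {ℓ : ℕ} [hℓ : Fact ℓ.Prime] (hW : (ℓ : ℂ)⁻¹ ∉ W)
include hW hℓ

/-- roots of unity of order `ℓ` are congruent to `1` above `ℓ` -/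
theorem val_root (ζ : ℂ) (hζ : ζ ^ ℓ = 1) : W.valuation (ζ - 1) < 1 := by
  have hint : IsIntegral ℤ ζ := by
    refine ⟨Polynomial.X ^ ℓ - 1, Polynomial.monic_X_pow_sub_C 1 hℓ.out.ne_zero, ?_⟩
    simp [hζ]
  set x : ℂ := ζ - 1 with hx
  have hxi : IsIntegral ℤ x := hint.sub isIntegral_one
  have h1 := add_pow_prime_eq hℓ.out x 1
  have e : x + 1 = ζ := by rw [hx]; ring
  rw [e, hζ, one_pow] at h1
  have h2 : x ^ ℓ = -((ℓ : ℂ) * (x * ∑ k ∈ Finset.Ioo 0 ℓ, x ^ (k - 1) * 1 ^ (ℓ - k - 1) *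
      ((ℓ.choose k / ℓ : ℕ) : ℂ))) := by
    linear_combination -h1
  have h3 : W.valuation (x ^ ℓ) < 1 := by
    rw [h2, Valuation.map_neg, map_mul]
    have h4 : W.valuation (x * ∑ k ∈ Finset.Ioo 0 ℓ, x ^ (k - 1) * 1 ^ (ℓ - k - 1) *
      ((ℓ.choose k / ℓ : ℕ) : ℂ)) ≤ 1 := by
      refine val_integral W (hxi.mul (IsIntegral.sum _ fun k _ => ?_))
      exact ((hxi.pow _).mul (isIntegral_one.pow _)).mul
        (isIntegral_natCast (R := ℤ) _)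
    calc W.valuation (ℓ : ℂ) * _ ≤ W.valuation (ℓ : ℂ) * 1 := mul_le_mul_right h4 _
      _ < 1 := by rw [mul_one]; exact val_q W hW
  rw [map_pow] at h3
  by_contra h5
  push Not at h5
  exact absurd h3 (not_lt.mpr (one_le_pow_of_one_le' h5 ℓ))

end

section
variable {F : Type u} [Field F] [NumberField F] {ℓ : ℕ} [hℓ : Fact ℓ.Prime]

include hℓ in
theorem absNorm_coprime (v : HeightOneSpectrum (𝓞 F)) (hv : (ℓ : 𝓞 F) ∉ v.asIdeal) :
    (Ideal.absNorm v.asIdeal).Coprime ℓ := by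
  rw [Nat.coprime_comm, Nat.Prime.coprime_iff_not_dvd hℓ.out]
  intro hd
  apply hv
  have hmax := v.isMaximal
  let _ : Field (𝓞 F ⧸ v.asIdeal) := Ideal.Quotient.field _
  have hfin : Finite (𝓞 F ⧸ v.asIdeal) := Ideal.finiteQuotientOfFreeOfNeBot _ v.ne_bot
  have := Fintype.ofFinite (𝓞 F ⧸ v.asIdeal)
  have hcard : Ideal.absNorm v.asIdeal = Nat.card (𝓞 F ⧸ v.asIdeal) := rfl
  obtain ⟨p, hp⟩ := CharP.exists (𝓞 F ⧸ v.asIdeal)
  obtain ⟨n, hn1, hn2⟩ := FiniteField.card (𝓞 F ⧸ v.asIdeal) p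
  rw [hcard, Nat.card_eq_fintype_card, hn2] at hd
  have h2 : ℓ = p := (Nat.prime_dvd_prime_iff_eq hℓ.out hn1).mp (hℓ.out.dvd_of_dvd_pow hd)
  subst h2
  rw [← Ideal.Quotient.eq_zero_iff_mem, map_natCast]
  exact CharP.cast_eq_zero (𝓞 F ⧸ v.asIdeal) ℓ

variable [Algebra K F] {f : 𝓞 K} [hf : IsMod f]

omit [Algebra K F] in
theorem coprime_of_not_mem (v : HeightOneSpectrum (𝓞 F)) (c : 𝓞 F) (h : c ∉ v.asIdeal) :
    IsCoprime v.asIdeal (Ideal.span {c}) := by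
  by_contra h1
  rw [← le_iff_not_coprime, Ideal.span_singleton_le_iff_mem] at h1
  exact h h1


end

end Pool.Agent.Lib.MP_1a91b9_nuG
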